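import Pool.Agent.W347.STL.Grp

set_option autoImplicit false

/-!
A simple torsion-free subgroup of `GL₃(ℂ)`.
-/

namespace Pool.Agent.W347.STL

open QuaternionAlgebra

variable {α β : ℂ} {K : Subfield ℂ}

lemma re_conj (x v : Q α β) (hv : v.re = 0) : (x * v * star x).re = 0 := by
  simp [hv]
  ring

lemma ad_apply (x : Q α β) : ad x = C3 x := rfl

lemma ad_one_conj {x : Q α β} (h : ad x = 1) :
    x * ⟨0, 1, 0, 0⟩ * star x = ⟨0, 1, 0, 0⟩ ∧ x * ⟨0, 0, 1, 0⟩ * star x = ⟨0, 0, 1, 0⟩ := by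
  rw [ad_apply] at h
  constructor
  · have e1 := congrFun (congrFun h 0) 0
    have e2 := congrFun (congrFun h 1) 0
    have e3 := congrFun (congrFun h 2) 0
    simp only [C3, Matrix.of_apply, Matrix.cons_val', Matrix.cons_val_zero, Matrix.cons_val_one,
      Matrix.cons_val, Matrix.one_apply_eq] at e1 e2 e3
    have f2 : ((1 : Matrix (Fin 3) (Fin 3) ℂ) 1 0) = 0 := by simp
    have f3 : ((1 : Matrix (Fin 3) (Fin 3) ℂ) 2 0) = 0 := by simp
    rw [f2] at e2
    rw [f3] at e3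
    ext
    · exact re_conj _ _ rfl
    · exact e1
    · exact e2
    · exact e3
  · have e1 := congrFun (congrFun h 0) 1
    have e2 := congrFun (congrFun h 1) 1
    have e3 := congrFun (congrFun h 2) 1
    simp only [C3, Matrix.of_apply, Matrix.cons_val', Matrix.cons_val_zero, Matrix.cons_val_one,
      Matrix.cons_val, Matrix.one_apply_eq] at e1 e2 e3
    have f1 : ((1 : Matrix (Fin 3) (Fin 3) ℂ) 0 1) = 0 := by simp
    have f3 : ((1 : Matrix (Fin 3) (Fin 3) ℂ) 2 1) = 0 := by simp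
    rw [f1] at e1
    rw [f3] at e3
    ext
    · exact re_conj _ _ rfl
    · exact e1
    · exact e2
    · exact e3

lemma im_of_ad {x : Q α β} (hα0 : α ≠ 0) (hβ0 : β ≠ 0) (hx : nr x = 1) (h : ad x = 1) :
    x.im = 0 := by
  obtain ⟨h1, h2⟩ := ad_one_conj h
  have hs : star x * x = 1 := by
    rw [star_mul_nr, hx]
    rfl
  have c1 : x * ⟨0, 1, 0, 0⟩ = ⟨0, 1, 0, 0⟩ * x := by
    calc x * (⟨0, 1, 0, 0⟩ : Q α β) = x * ⟨0, 1, 0, 0⟩ * (star x * x) := by rw [hs, mul_one]
      _ = (x * ⟨0, 1, 0, 0⟩ * star x) * x := by simp only [mul_assoc]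
      _ = _ := by rw [h1]
  have c2 : x * ⟨0, 0, 1, 0⟩ = ⟨0, 0, 1, 0⟩ * x := by
    calc x * (⟨0, 0, 1, 0⟩ : Q α β) = x * ⟨0, 0, 1, 0⟩ * (star x * x) := by rw [hs, mul_one]
      _ = (x * ⟨0, 0, 1, 0⟩ * star x) * x := by simp only [mul_assoc]
      _ = _ := by rw [h2]
  have e1 := congrArg QuaternionAlgebra.imK c1
  have e2 := congrArg QuaternionAlgebra.imJ c1
  have e3 := congrArg QuaternionAlgebra.imK c2
  simp only [imK_mul, imJ_mul] at e1 e2 e3
  have f1 : x.imJ = 0 := by linear_combination -e1 / 2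
  have f2 : x.imK = 0 := by
    have : α * x.imK = 0 := by linear_combination -e2 / 2
    exact (mul_eq_zero.1 this).resolve_left hα0
  have f3 : x.imI = 0 := by linear_combination e3 / 2
  ext
  · simp
  · simpa using f3
  · simpa using f1
  · simpa using f2

lemma sq_one_of_im {x : Q α β} (hx : nr x = 1) (h : x.im = 0) : x * x = 1 := by
  have e1 := eq_coe_of_im h
  have e2 : x.re ^ 2 = 1 := by
    rw [e1, nr_coe] at hx
    exact hx
  rw [e1]
  ext
  · simp
    linear_combination e2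
  · simp
  · simp
  · simp

lemma ad_of_im {x : Q α β} (hx : nr x = 1) (h : x.im = 0) : ad x = 1 := by
  have e1 := eq_coe_of_im h
  have e2 : x.re * x.re = 1 := by
    rw [e1, nr_coe] at hx
    linear_combination hx
  rw [e1, ad_apply]
  ext i j
  fin_cases i <;> fin_cases j <;> simp [C3, e2]

lemma ad_neg_one : ad (-1 : Q α β) = 1 := by
  apply ad_of_im
  · rw [nr_neg, nr_one]
  · ext <;> simp

/-- There is a simple torsion-free subgroup of `GL₃(ℂ)`. -/
theorem exists_simple_torsionFree_linear :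
    ∃ G : Subgroup (Matrix.GeneralLinearGroup (Fin 3) ℂ),
      IsSimpleGroup G ∧ ∀ g : G, g ≠ 1 → ¬ IsOfFinOrder g := by
  obtain ⟨α, β, K, hα, hβ, hI, hroot, han, h1, h2⟩ := main_field
  have hα0 := α_ne han hα
  have hβ0 := β_ne han hα
  let Φ : (Q α β)ˣ →* Matrix.GeneralLinearGroup (Fin 3) ℂ := Units.map (ad (α := α) (β := β))
  have hΦ1 : ∀ u ∈ G1 K hα hβ, Φ u = 1 → (u : Q α β).im = 0 := by
    intro u hu h
    exact im_of_ad hα0 hβ0 hu.2 (congrArg Units.val h)
  have hΦ2 : ∀ u ∈ G1 K hα hβ, (u : Q α β).im = 0 → Φ u = 1 := by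
    intro u hu h
    apply Units.ext
    exact ad_of_im hu.2 h
  refine ⟨(G1 K hα hβ).map Φ, ?_, ?_⟩
  · have hnt : Nontrivial ((G1 K hα hβ).map Φ) := by
      have hx0 : (⟨1, 1, 0, 0⟩ : Q α β) ≠ 0 := by
        intro h
        simpa using congrArg QuaternionAlgebra.re h
      have hxD : inD K (⟨1, 1, 0, 0⟩ : Q α β) := ⟨K.one_mem, K.one_mem, K.zero_mem, K.zero_mem⟩
      have hn := nr_ne han hxD hx0
      have hn' : (1 : ℂ) - α ≠ 0 := by
        intro h
        apply hn
        simp [nr, h]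
      set y : Q α β := ⟨(1 + α) / (1 - α), 2 / (1 - α), 0, 0⟩ with hy
      have h2K : (2 : ℂ) ∈ K := by
        rw [show (2 : ℂ) = 1 + 1 by norm_num]
        exact K.add_mem K.one_mem K.one_mem
      have hyD : inD K y := ⟨K.div_mem (K.add_mem K.one_mem hα) (K.sub_mem K.one_mem hα),
        K.div_mem h2K (K.sub_mem K.one_mem hα), K.zero_mem, K.zero_mem⟩
      have hy1 : nr y = 1 := by
        simp only [nr, hy]
        field_simp
        ring
      have hyne : nr y ≠ 0 := by rw [hy1]; exact one_ne_zero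
      have hyG : mkU y hyne ∈ G1 K hα hβ := ⟨hyD, hy1⟩
      refine ⟨⟨⟨Φ (mkU y hyne), Subgroup.mem_map_of_mem _ hyG⟩, 1, ?_⟩⟩
      intro h
      have h3 := hΦ1 _ hyG (congrArg Subtype.val h)
      have h4 := congrArg QuaternionAlgebra.imI h3
      simp only [mkU_val, imI_im, hy, imI_zero, div_eq_zero_iff] at h4
      rcases h4 with h4 | h4
      · exact two_ne_zero h4
      · exact hn' h4
    refine { toNontrivial := hnt, eq_bot_or_eq_top_of_normal := ?_ }
    intro H hH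
    set N : Subgroup (Q α β)ˣ := (H.map ((G1 K hα hβ).map Φ).subtype).comap Φ ⊓ G1 K hα hβ with hN
    have hmemN : ∀ u (hu : u ∈ G1 K hα hβ), u ∈ N ↔
        (⟨Φ u, Subgroup.mem_map_of_mem _ hu⟩ : (G1 K hα hβ).map Φ) ∈ H := by
      intro u hu
      rw [hN, Subgroup.mem_inf, Subgroup.mem_comap, Subgroup.mem_map]
      constructor
      · rintro ⟨⟨x, hx, hxu⟩, -⟩
        have : x = ⟨Φ u, Subgroup.mem_map_of_mem _ hu⟩ := Subtype.ext hxu
        rwa [← this]
      · intro h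
        exact ⟨⟨_, h, rfl⟩, hu⟩
    have hNle : N ≤ G1 K hα hβ := inf_le_right
    have hnorm : ∀ n ∈ N, ∀ g ∈ G1 K hα hβ, g * n * g⁻¹ ∈ N := by
      intro n hn g hg
      have hnG := hNle hn
      have hgn : g * n * g⁻¹ ∈ G1 K hα hβ :=
        (G1 K hα hβ).mul_mem ((G1 K hα hβ).mul_mem hg hnG) ((G1 K hα hβ).inv_mem hg)
      rw [hmemN _ hgn]
      have := hH.conj_mem _ ((hmemN n hnG).1 hn) ⟨Φ g, Subgroup.mem_map_of_mem _ hg⟩
      convert this using 1
      apply Subtype.ext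
      simp
    have hneg1 : (-1 : (Q α β)ˣ) ∈ G1 K hα hβ := by
      refine ⟨?_, ?_⟩
      · rw [Units.val_neg, Units.val_one]; exact inD_neg inD_one
      · rw [Units.val_neg, Units.val_one, nr_neg, nr_one]
    have hneg : (-1 : (Q α β)ˣ) ∈ N := by
      rw [hmemN _ hneg1]
      have : (⟨Φ (-1), Subgroup.mem_map_of_mem _ hneg1⟩ : (G1 K hα hβ).map Φ) = 1 := by
        apply Subtype.ext
        apply Units.ext
        change ad ((-1 : (Q α β)ˣ) : Q α β) = 1
        rw [Units.val_neg, Units.val_one]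
        exact ad_neg_one
      rw [this]
      exact H.one_mem
    by_cases hex : ∃ a ∈ N, (a : Q α β).im ≠ 0
    · right
      obtain ⟨a, ha, hai⟩ := hex
      have hle := normal_sub hI han h1 h2 hNle hnorm hneg ha hai
      rw [eq_top_iff]
      rintro ⟨g, hg⟩ -
      obtain ⟨u, hu, rfl⟩ := hg
      exact (hmemN u hu).1 (hle hu)
    · left
      push Not at hex
      rw [eq_bot_iff]
      rintro ⟨g, hg⟩ hgH
      obtain ⟨u, hu, rfl⟩ := hg
      have := hΦ2 u hu (hex u ((hmemN u hu).2 hgH))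
      rw [Subgroup.mem_bot]
      exact Subtype.ext this
  · rintro ⟨g, hg⟩ hne hfin
    obtain ⟨u, hu, rfl⟩ := hg
    obtain ⟨n, hn, hgn⟩ := isOfFinOrder_iff_pow_eq_one.1 hfin
    apply hne
    apply Subtype.ext
    have h3 : Φ u ^ n = 1 := congrArg Subtype.val hgn
    have hun : u ^ n ∈ G1 K hα hβ := (G1 K hα hβ).pow_mem hu n
    rw [← map_pow] at h3
    have h4 := hΦ1 _ hun h3
    have h5 := sq_one_of_im hun.2 h4
    have h6 : ((u : (Q α β)ˣ) : Q α β) ^ (2 * n) = 1 := by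
      rw [mul_comm, pow_mul, pow_two, ← Units.val_pow_eq_pow_val]
      exact h5
    exact hΦ2 u hu (torsion_free hα hβ hroot han hu.1 hu.2 (by omega) h6)

end Pool.Agent.W347.STL
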