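import Pool.Agent.W347.STL.Ext3

set_option autoImplicit false

/-!
The field obtained by iterating the two extension steps.
-/

namespace Pool.Agent.W347.STL

open Polynomial Pool.Agent.H918R3 QuaternionAlgebra Cardinal

/-- closure under countably many tasks -/
theorem chain_lemma {T' : Type} (P : Subfield ℂ → Prop) (T : Subfield ℂ → Set T')
    (S : T' → Subfield ℂ → Prop) (hTc : ∀ K, P K → (T K).Countable)
    (hTm : ∀ K K' : Subfield ℂ, K ≤ K' → T K ⊆ T K')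
    (hSm : ∀ x (K K' : Subfield ℂ), K ≤ K' → S x K → S x K')
    (hstep : ∀ K, P K → ∀ x ∈ T K, ∃ K', K ≤ K' ∧ P K' ∧ S x K')
    (hPU : ∀ K : ℕ → Subfield ℂ, Monotone K → (∀ n, P (K n)) → P (⨆ n, K n))
    (hTU : ∀ K : ℕ → Subfield ℂ, Monotone K → ∀ x ∈ T (⨆ n, K n), ∃ n, x ∈ T (K n))
    (K₀ : Subfield ℂ) (hK₀ : P K₀) : ∃ K, K₀ ≤ K ∧ P K ∧ ∀ x ∈ T K, S x K := by
  classical
  -- inner closure
  have inner : ∀ K, P K → ∃ K', K ≤ K' ∧ P K' ∧ ∀ x ∈ T K, S x K' := by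
    intro K hK
    rcases Set.eq_empty_or_nonempty (T K) with he | hne
    · exact ⟨K, le_rfl, hK, fun x hx => by rw [he] at hx; exact absurd hx (Set.notMem_empty x)⟩
    obtain ⟨f, hf⟩ := (hTc K hK).exists_eq_range hne
    have hfT : ∀ n, f n ∈ T K := fun n => by rw [hf]; exact ⟨n, rfl⟩
    let A := {K' : Subfield ℂ // P K' ∧ K ≤ K'}
    have hA : ∀ (L : A) (n : ℕ), ∃ L' : A, L.1 ≤ L'.1 ∧ S (f n) L'.1 := by
      intro L n
      obtain ⟨K', h1, h2, h3⟩ := hstep L.1 L.2.1 (f n) (hTm K L.1 L.2.2 (hfT n))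
      exact ⟨⟨K', h2, L.2.2.trans h1⟩, h1, h3⟩
    choose nxt hn1 hn2 using hA
    let seq : ℕ → A := fun n => Nat.rec ⟨K, hK, le_rfl⟩ (fun n L => nxt L n) n
    have hseq : ∀ n, seq (n + 1) = nxt (seq n) n := fun n => rfl
    have hmono : Monotone (fun n => (seq n).1) := by
      apply monotone_nat_of_le_succ
      intro n
      change (seq n).1 ≤ (seq (n + 1)).1
      rw [hseq]
      exact hn1 _ _
    refine ⟨⨆ n, (seq n).1, (le_iSup (fun n => (seq n).1) 0), hPU _ hmono fun n => (seq n).2.1, ?_⟩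
    intro x hx
    rw [hf] at hx
    obtain ⟨n, rfl⟩ := hx
    refine hSm _ _ _ (le_iSup (fun n => (seq n).1) (n + 1)) ?_
    change S (f n) (seq (n + 1)).1
    rw [hseq]
    exact hn2 _ _
  let A := {K' : Subfield ℂ // P K'}
  have hA : ∀ L : A, ∃ L' : A, L.1 ≤ L'.1 ∧ ∀ x ∈ T L.1, S x L'.1 := by
    intro L
    obtain ⟨K', h1, h2, h3⟩ := inner L.1 L.2
    exact ⟨⟨K', h2⟩, h1, h3⟩
  choose nxt hn1 hn2 using hA
  let seq : ℕ → A := fun n => Nat.rec ⟨K₀, hK₀⟩ (fun _ L => nxt L) n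
  have hseq : ∀ n, seq (n + 1) = nxt (seq n) := fun n => rfl
  have hmono : Monotone (fun n => (seq n).1) := by
    apply monotone_nat_of_le_succ
    intro n
    change (seq n).1 ≤ (seq (n + 1)).1
    rw [hseq]
    exact hn1 _
  refine ⟨⨆ n, (seq n).1, (le_iSup (fun n => (seq n).1) 0), hPU _ hmono fun n => (seq n).2, ?_⟩
  intro x hx
  obtain ⟨n, hn⟩ := hTU _ hmono x hx
  refine hSm _ _ _ (le_iSup (fun n => (seq n).1) (n + 1)) ?_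
  change S x (seq (n + 1)).1
  rw [hseq]
  exact hn2 _ _ hn

lemma mem_iSup_mono {K : ℕ → Subfield ℂ} (hK : Monotone K) {x : ℂ} :
    x ∈ (⨆ n, K n : Subfield ℂ) ↔ ∃ n, x ∈ K n :=
  Subfield.mem_iSup_of_directed hK.directed_le

variable {α β : ℂ}

lemma inD_iSup {K : ℕ → Subfield ℂ} (hK : Monotone K) {x : Q α β}
    (hx : inD (⨆ n, K n : Subfield ℂ) x) : ∃ n, inD (K n) x := by
  obtain ⟨h0, h1, h2, h3⟩ := hx
  rw [mem_iSup_mono hK] at h0 h1 h2 h3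
  obtain ⟨n0, h0⟩ := h0
  obtain ⟨n1, h1⟩ := h1
  obtain ⟨n2, h2⟩ := h2
  obtain ⟨n3, h3⟩ := h3
  refine ⟨n0 + n1 + n2 + n3, hK (by omega) h0, hK (by omega) h1, hK (by omega) h2,
    hK (by omega) h3⟩

/-- first property -/
def S1 (a : Q α β) (ν : ℂ) (K : Subfield ℂ) : Prop :=
  a.im ≠ 0 → ν ≠ 0 → ∃ w : Q α β, inD K w ∧ nr w = ν ∧ (w * a = a * w ∨ w * a = star a * w)

/-- second property -/
def S2 (a b : Q α β) (K : Subfield ℂ) : Prop :=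
  nr a = 1 → nr b = 1 → a.im ≠ 0 → b.im ≠ 0 → (∃ x ∈ K, x ^ 2 = 2 * b.re - 2) ∨
    ∃ g w : Q α β, inD K g ∧ g ≠ 0 ∧ inD K w ∧ w * b = star b * w ∧
      nr w = 1 - TT a g ^ 2 / (2 + 2 * b.re)

lemma S1_mono {a : Q α β} {ν : ℂ} {K K' : Subfield ℂ} (h : K ≤ K') (hS : S1 a ν K) :
    S1 a ν K' := by
  intro h1 h2
  obtain ⟨w, hw, h3, h4⟩ := hS h1 h2
  exact ⟨w, inD_mono h hw, h3, h4⟩

lemma S2_mono {a b : Q α β} {K K' : Subfield ℂ} (h : K ≤ K') (hS : S2 a b K) :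
    S2 a b K' := by
  intro h1 h2 h3 h4
  rcases hS h1 h2 h3 h4 with ⟨x, hx, h5⟩ | ⟨g, w, hg, hg0, hw, h5, h6⟩
  · exact Or.inl ⟨x, h hx, h5⟩
  · exact Or.inr ⟨g, w, inD_mono h hg, hg0, inD_mono h hw, h5, h6⟩

theorem closure_field {K₀ : Subfield ℂ} (hα : α ∈ K₀) (hβ : β ∈ K₀) (hI : Complex.I ∈ K₀)
    (han : Aniso α β K₀) (hc : Countable K₀) : ∃ K : Subfield ℂ, K₀ ≤ K ∧ Aniso α β K ∧
      (∀ (a : Q α β) (ν : ℂ), inD K a → ν ∈ K → S1 a ν K) ∧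
      (∀ a b : Q α β, inD K a → inD K b → S2 a b K) := by
  suffices hsuf : ∃ K, K₀ ≤ K ∧ (K₀ ≤ K ∧ Countable K ∧ Aniso α β K) ∧
      ∀ x ∈ {x : Q α β × Q α β × ℂ | inD K x.1 ∧ inD K x.2.1 ∧ x.2.2 ∈ K},
        S1 x.1 x.2.2 K ∧ S2 x.1 x.2.1 K by
    obtain ⟨K, hK, hP, hT⟩ := hsuf
    exact ⟨K, hK, hP.2.2, fun a ν ha hν => (hT (a, a, ν) ⟨ha, ha, hν⟩).1,
      fun a b ha hb => (hT (a, b, 0) ⟨ha, hb, K.zero_mem⟩).2⟩
  refine chain_lemma (T' := Q α β × Q α β × ℂ)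
    (fun K => K₀ ≤ K ∧ Countable K ∧ Aniso α β K)
    (fun K => {x | inD K x.1 ∧ inD K x.2.1 ∧ x.2.2 ∈ K})
    (fun x K => S1 x.1 x.2.2 K ∧ S2 x.1 x.2.1 K) ?_ ?_ ?_ ?_ ?_ ?_ K₀ ⟨le_rfl, hc, han⟩
  · -- countability
    rintro K ⟨-, hcK, -⟩
    let φ : (K × K × K × K) × (K × K × K × K) × K → Q α β × Q α β × ℂ := fun x =>
      (⟨x.1.1, x.1.2.1, x.1.2.2.1, x.1.2.2.2⟩, ⟨x.2.1.1, x.2.1.2.1, x.2.1.2.2.1, x.2.1.2.2.2⟩,
        x.2.2)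
    refine (Set.countable_range φ).mono ?_
    rintro ⟨x, y, z⟩ ⟨⟨hx0, hx1, hx2, hx3⟩, ⟨hy0, hy1, hy2, hy3⟩, hz⟩
    exact ⟨((⟨_, hx0⟩, ⟨_, hx1⟩, ⟨_, hx2⟩, ⟨_, hx3⟩), (⟨_, hy0⟩, ⟨_, hy1⟩, ⟨_, hy2⟩, ⟨_, hy3⟩),
      ⟨z, hz⟩), rfl⟩
  · rintro K K' h x ⟨h1, h2, h3⟩
    exact ⟨inD_mono h h1, inD_mono h h2, h h3⟩
  · rintro x K K' h ⟨h1, h2⟩
    exact ⟨S1_mono h h1, S2_mono h h2⟩
  · -- the step
    rintro K ⟨hK0, hcK, hanK⟩ ⟨a, b, ν⟩ ⟨ha, hb, hν⟩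
    simp only at ha hb hν
    have e1 : ∃ K' : Subfield ℂ, K ≤ K' ∧ Countable K' ∧ Aniso α β K' ∧ S1 a ν K' := by
      by_cases hai : a.im = 0
      · exact ⟨K, le_rfl, hcK, hanK, fun h => absurd hai h⟩
      by_cases hν0 : ν = 0
      · exact ⟨K, le_rfl, hcK, hanK, fun _ h => absurd hν0 h⟩
      rcases ext1 (hK0 hα) (hK0 hβ) (hK0 hI) hanK hcK ha hai hν hν0 with
        ⟨w, hw, hwn, hwa⟩ | ⟨K', hKK', hcK', hanK', w, hw, hwn, hwa⟩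
      · exact ⟨K, le_rfl, hcK, hanK, fun _ _ => ⟨w, hw, hwn, Or.inr hwa⟩⟩
      · exact ⟨K', hKK', hcK', hanK', fun _ _ => ⟨w, hw, hwn, Or.inl hwa⟩⟩
    obtain ⟨K1, hKK1, hcK1, hanK1, hS1⟩ := e1
    have hK01 : K₀ ≤ K1 := hK0.trans hKK1
    have e2 : ∃ K' : Subfield ℂ, K1 ≤ K' ∧ Countable K' ∧ Aniso α β K' ∧ S2 a b K' := by
      by_cases hcond : nr a = 1 ∧ nr b = 1 ∧ a.im ≠ 0 ∧ b.im ≠ 0 ∧
          ∀ x ∈ K1, x ^ 2 ≠ 2 * b.re - 2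
      · obtain ⟨na, nb, hai, hbi, hτ⟩ := hcond
        obtain ⟨K', h1, h2, h3, h4⟩ := ext2 (hK01 hα) (hK01 hβ) (hK01 hI) hanK1 hcK1
          (inD_mono hKK1 ha) (inD_mono hKK1 hb) na nb hai hbi hτ
        exact ⟨K', h1, h2, h3, fun _ _ _ _ => Or.inr h4⟩
      · refine ⟨K1, le_rfl, hcK1, hanK1, fun h1 h2 h3 h4 => Or.inl ?_⟩
        by_contra hno
        push Not at hno
        exact hcond ⟨h1, h2, h3, h4, hno⟩
    obtain ⟨K2, hK12, hcK2, hanK2, hS2⟩ := e2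
    exact ⟨K2, hKK1.trans hK12, ⟨hK01.trans hK12, hcK2, hanK2⟩, S1_mono hK12 hS1, hS2⟩
  · -- unions
    intro K hK hP
    refine ⟨(hP 0).1.trans (le_iSup K 0), ?_, ?_⟩
    · have h1 : ((⨆ n, K n : Subfield ℂ) : Set ℂ) = ⋃ n, (K n : Set ℂ) := by
        ext x
        rw [Set.mem_iUnion]
        exact mem_iSup_mono hK
      have h2 : Set.Countable ((⨆ n, K n : Subfield ℂ) : Set ℂ) := by
        rw [h1]
        exact Set.countable_iUnion fun n => Set.countable_coe_iff.1 (hP n).2.1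
      exact h2.to_subtype
    · intro x hx hn
      obtain ⟨n, hxn⟩ := inD_iSup hK hx
      exact (hP n).2.2 x hxn hn
  · rintro K hK ⟨x, y, z⟩ ⟨hx, hy, hz⟩
    simp only at hx hy hz
    obtain ⟨n, hxn⟩ := inD_iSup hK hx
    obtain ⟨m, hym⟩ := inD_iSup hK hy
    rw [mem_iSup_mono hK] at hz
    obtain ⟨k, hzk⟩ := hz
    exact ⟨n + m + k, inD_mono (hK (by omega)) hxn, inD_mono (hK (by omega)) hym,
      hK (by omega) hzk⟩

/-- the base field -/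
theorem base_field : ∃ (α β : ℂ) (K : Subfield ℂ), α ∈ K ∧ β ∈ K ∧ Complex.I ∈ K ∧
    (∀ (z : ℂ) (n : ℕ), 0 < n → z ^ n = 1 → z ∈ K) ∧ Aniso α β K ∧ Countable K := by
  set C₀ : Subfield ℂ := Alg (algebraMap ℚ ℂ).fieldRange with hC₀
  have hcR : Countable (algebraMap ℚ ℂ).fieldRange := by
    have : Set.Countable (((algebraMap ℚ ℂ).fieldRange : Subfield ℂ) : Set ℂ) := by
      rw [RingHom.coe_fieldRange]
      exact Set.countable_range _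
    exact this.to_subtype
  have hcC₀ : Countable C₀ := countable_Alg _ hcR
  have hroot : ∀ (z : ℂ) (n : ℕ), 0 < n → z ^ n = 1 → z ∈ C₀ := by
    intro z n hn hz
    rw [hC₀, mem_Alg]
    refine IsAlgebraic.of_pow hn ?_
    rw [hz]
    exact isAlgebraic_one
  have hIC₀ : Complex.I ∈ C₀ := hroot _ 4 (by norm_num) (by
    rw [show (4 : ℕ) = 2 * 2 by norm_num, pow_mul, Complex.I_sq]
    norm_num)
  obtain ⟨α, hα⟩ := exists_tr C₀ hcC₀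
  have hα' : Transcendental C₀ α := tr_mono (le_Alg C₀) hα
  set K1 := adj C₀ α with hK1
  have hcK1 : Countable K1 := countable_adj C₀ hcC₀ α
  obtain ⟨β, hβ⟩ := exists_tr K1 hcK1
  have hβ' : Transcendental K1 β := tr_mono (le_Alg K1) hβ
  set K := adj K1 β with hK
  have hαK1 : α ∈ K1 := self_mem_adj C₀ α
  have hβK : β ∈ K := self_mem_adj K1 β
  have h1K : K1 ≤ K := le_adj K1 β
  have h0K : C₀ ≤ K := (le_adj C₀ α).trans h1K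
  have ns1 : ∀ x ∈ K1, x ^ 2 ≠ α := by
    intro x hx hx2
    refine parity0 hα' (r := 0) 1 (by simp) hx ?_
    simp [hx2]
  have ns2 : ∀ x ∈ K, x ^ 2 ≠ α := nonsq_adj hβ' hαK1 ns1
  have hnz : ∀ x ∈ K, ∀ y ∈ K, x ^ 2 - α * y ^ 2 = 0 → x = 0 ∧ y = 0 := by
    intro x hx y hy h
    by_cases hy0 : y = 0
    · rw [hy0] at h
      refine ⟨?_, hy0⟩
      have : x ^ 2 = 0 := by linear_combination h
      exact (pow_eq_zero_iff two_ne_zero).1 this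
    · exfalso
      refine ns2 (x / y) (K.div_mem hx hy) ?_
      field_simp
      linear_combination h
  refine ⟨α, β, K, h1K hαK1, hβK, h0K hIC₀, fun z n hn hz => h0K (hroot z n hn hz), ?_,
    countable_adj K1 hcK1 β⟩
  intro x hx hn
  obtain ⟨h0, h1, h2, h3⟩ := hx
  have hn' : (x.re ^ 2 - α * x.imI ^ 2) = β * (x.imJ ^ 2 - α * x.imK ^ 2) := by
    rw [nr] at hn
    linear_combination hn
  by_cases hz : x.imJ ^ 2 - α * x.imK ^ 2 = 0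
  · obtain ⟨e2, e3⟩ := hnz _ h2 _ h3 hz
    rw [hz, mul_zero] at hn'
    obtain ⟨e0, e1⟩ := hnz _ h0 _ h1 hn'
    ext
    · simpa using e0
    · simpa using e1
    · simpa using e2
    · simpa using e3
  · exfalso
    have hαK : α ∈ K := h1K hαK1
    have hdK : x.imJ ^ 2 - α * x.imK ^ 2 ∈ K :=
      K.sub_mem (K.pow_mem h2 2) (K.mul_mem hαK (K.pow_mem h3 2))
    refine parity hβ' (δ := ⟨α, hαK1⟩) (r := 0) ?_ 1 (by simp)
      (x := (x.re * x.imJ - α * x.imI * x.imK) / (x.imJ ^ 2 - α * x.imK ^ 2))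
      (y := (x.re * x.imK - x.imI * x.imJ) / (x.imJ ^ 2 - α * x.imK ^ 2)) ?_ ?_ ?_
    · intro y hy
      exact ns1 y y.2 (congrArg (fun x : K1 => (x : ℂ)) hy)
    · exact K.div_mem (K.sub_mem (K.mul_mem h0 h2) (K.mul_mem (K.mul_mem hαK h1) h3)) hdK
    · exact K.div_mem (K.sub_mem (K.mul_mem h0 h3) (K.mul_mem h1 h2)) hdK
    · simp only [map_mul, map_sub, aeval_X, map_zero, map_one, mul_one, sub_zero]
      field_simp
      linear_combination (x.imJ ^ 2 - α * x.imK ^ 2) * hn'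

theorem main_field : ∃ (α β : ℂ) (K : Subfield ℂ), α ∈ K ∧ β ∈ K ∧ Complex.I ∈ K ∧
    (∀ (z : ℂ) (n : ℕ), 0 < n → z ^ n = 1 → z ∈ K) ∧ Aniso α β K ∧
      (∀ (a : Q α β) (ν : ℂ), inD K a → ν ∈ K → S1 a ν K) ∧
      (∀ a b : Q α β, inD K a → inD K b → S2 a b K) := by
  obtain ⟨α, β, K, h1, h2, h3, h4, h5, h6⟩ := base_field
  obtain ⟨K', h7, h8, h9, h10⟩ := closure_field h1 h2 h3 h5 h6
  exact ⟨α, β, K', h7 h1, h7 h2, h7 h3, fun z n hn hz => h7 (h4 z n hn hz), h8, h9, h10⟩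

end Pool.Agent.W347.STL
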