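import Pool.Agent.W347.STL.Fld

set_option autoImplicit false

/-!
Quaternion algebras `(α, β)` over subfields of `ℂ`, inside the algebra over `ℂ`.
-/

namespace Pool.Agent.W347.STL

open Polynomial Pool.Agent.H918R3 QuaternionAlgebra

/-- the quaternion algebra `(α, β)` over `ℂ` -/
abbrev Q (α β : ℂ) : Type := QuaternionAlgebra ℂ α 0 β

variable {α β : ℂ}

/-- reduced norm -/
def nr (x : Q α β) : ℂ := x.re ^ 2 - α * x.imI ^ 2 - β * x.imJ ^ 2 + α * β * x.imK ^ 2

/-- coordinates in `K` -/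
def inD (K : Subfield ℂ) (x : Q α β) : Prop := x.re ∈ K ∧ x.imI ∈ K ∧ x.imJ ∈ K ∧ x.imK ∈ K

/-- `K` is a field over which `(α, β)` is a division algebra -/
def Aniso (α β : ℂ) (K : Subfield ℂ) : Prop := ∀ x : Q α β, inD K x → nr x = 0 → x = 0

lemma nr_mul (x y : Q α β) : nr (x * y) = nr x * nr y := by
  simp only [nr, re_mul, imI_mul, imJ_mul, imK_mul]
  ring

lemma nr_star (x : Q α β) : nr (star x) = nr x := by
  simp [nr]

lemma nr_one : nr (1 : Q α β) = 1 := by
  simp [nr]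

lemma nr_zero : nr (0 : Q α β) = 0 := by
  simp [nr]

lemma nr_neg (x : Q α β) : nr (-x) = nr x := by
  simp [nr]

lemma nr_smul (c : ℂ) (x : Q α β) : nr (c • x) = c ^ 2 * nr x := by
  simp only [nr, re_smul, imI_smul, imJ_smul, imK_smul, smul_eq_mul]
  ring

lemma mul_star_nr (x : Q α β) : x * star x = ((nr x : ℂ) : Q α β) := by
  ext <;> simp only [re_mul, imI_mul, imJ_mul, imK_mul, re_star, imI_star, imJ_star, imK_star,
    re_coe, imI_coe, imJ_coe, imK_coe, nr] <;> ring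

lemma star_mul_nr (x : Q α β) : star x * x = ((nr x : ℂ) : Q α β) := by
  ext <;> simp only [re_mul, imI_mul, imJ_mul, imK_mul, re_star, imI_star, imJ_star, imK_star,
    re_coe, imI_coe, imJ_coe, imK_coe, nr] <;> ring

lemma star_eq (x : Q α β) : star x = ((2 * x.re : ℂ) : Q α β) - x := by
  ext <;> simp; ring

/-- inverse -/
noncomputable def qinv (x : Q α β) : Q α β := (nr x)⁻¹ • star x

lemma mul_qinv {x : Q α β} (h : nr x ≠ 0) : x * qinv x = 1 := by
  rw [qinv, mul_smul_comm, mul_star_nr]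
  ext <;> simp [h]

lemma qinv_mul {x : Q α β} (h : nr x ≠ 0) : qinv x * x = 1 := by
  rw [qinv, smul_mul_assoc, star_mul_nr]
  ext <;> simp [h]

lemma nr_qinv {x : Q α β} (h : nr x ≠ 0) : nr (qinv x) = (nr x)⁻¹ := by
  rw [qinv, nr_smul, nr_star]
  field_simp

section

variable {K : Subfield ℂ}

lemma inD_zero : inD K (0 : Q α β) := by
  simp [inD, K.zero_mem]

lemma inD_one : inD K (1 : Q α β) := by
  simp [inD, K.zero_mem, K.one_mem]

lemma inD_coe {c : ℂ} (hc : c ∈ K) : inD K ((c : ℂ) : Q α β) := by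
  simp [inD, K.zero_mem, hc]

lemma inD_add {x y : Q α β} (hx : inD K x) (hy : inD K y) : inD K (x + y) :=
  ⟨K.add_mem hx.1 hy.1, K.add_mem hx.2.1 hy.2.1, K.add_mem hx.2.2.1 hy.2.2.1,
    K.add_mem hx.2.2.2 hy.2.2.2⟩

lemma inD_neg {x : Q α β} (hx : inD K x) : inD K (-x) :=
  ⟨K.neg_mem hx.1, K.neg_mem hx.2.1, K.neg_mem hx.2.2.1, K.neg_mem hx.2.2.2⟩

lemma inD_sub {x y : Q α β} (hx : inD K x) (hy : inD K y) : inD K (x - y) := by
  rw [sub_eq_add_neg]
  exact inD_add hx (inD_neg hy)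

lemma inD_smul {c : ℂ} (hc : c ∈ K) {x : Q α β} (hx : inD K x) : inD K (c • x) :=
  ⟨K.mul_mem hc hx.1, K.mul_mem hc hx.2.1, K.mul_mem hc hx.2.2.1, K.mul_mem hc hx.2.2.2⟩

lemma inD_star {x : Q α β} (hx : inD K x) : inD K (star x) := by
  obtain ⟨h0, h1, h2, h3⟩ := hx
  refine ⟨?_, ?_, ?_, ?_⟩
  · simpa using h0
  · simpa using K.neg_mem h1
  · simpa using K.neg_mem h2
  · simpa using K.neg_mem h3

lemma inD_mul (hα : α ∈ K) (hβ : β ∈ K) {x y : Q α β} (hx : inD K x) (hy : inD K y) :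
    inD K (x * y) := by
  obtain ⟨h0, h1, h2, h3⟩ := hx
  obtain ⟨g0, g1, g2, g3⟩ := hy
  refine ⟨?_, ?_, ?_, ?_⟩
  · rw [re_mul]
    refine K.sub_mem (K.add_mem (K.add_mem (K.add_mem ?_ ?_) ?_) ?_) ?_ <;>
    (repeat' first | assumption | apply K.mul_mem | exact K.zero_mem)
  · rw [imI_mul]
    refine K.add_mem (K.sub_mem (K.add_mem (K.add_mem ?_ ?_) ?_) ?_) ?_ <;>
    (repeat' first | assumption | apply K.mul_mem | exact K.zero_mem)
  · rw [imJ_mul]
    refine K.sub_mem (K.add_mem (K.add_mem (K.add_mem ?_ ?_) ?_) ?_) ?_ <;>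
    (repeat' first | assumption | apply K.mul_mem | exact K.zero_mem)
  · rw [imK_mul]
    refine K.add_mem (K.sub_mem (K.add_mem (K.add_mem ?_ ?_) ?_) ?_) ?_ <;>
    (repeat' first | assumption | apply K.mul_mem | exact K.zero_mem)

lemma nr_mem (hα : α ∈ K) (hβ : β ∈ K) {x : Q α β} (hx : inD K x) : nr x ∈ K := by
  obtain ⟨h0, h1, h2, h3⟩ := hx
  refine K.add_mem (K.sub_mem (K.sub_mem ?_ ?_) ?_) ?_ <;>
    (repeat' first | assumption | apply K.mul_mem | apply K.pow_mem)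

lemma inD_qinv (hα : α ∈ K) (hβ : β ∈ K) {x : Q α β} (hx : inD K x) : inD K (qinv x) :=
  inD_smul (K.inv_mem (nr_mem hα hβ hx)) (inD_star hx)

lemma inD_mono {L : Subfield ℂ} (h : K ≤ L) {x : Q α β} (hx : inD K x) : inD L x :=
  ⟨h hx.1, h hx.2.1, h hx.2.2.1, h hx.2.2.2⟩

lemma nr_ne (han : Aniso α β K) {x : Q α β} (hx : inD K x) (h : x ≠ 0) : nr x ≠ 0 :=
  fun h0 => h (han x hx h0)

lemma α_ne (han : Aniso α β K) (hα : α ∈ K) : α ≠ 0 := by
  rintro rfl
  have := han ⟨0, 1, 0, 0⟩ ⟨K.zero_mem, K.one_mem, K.zero_mem, K.zero_mem⟩ (by simp [nr])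
  simpa using congrArg QuaternionAlgebra.imI this

lemma β_ne (han : Aniso α β K) (hα : α ∈ K) : β ≠ 0 := by
  rintro rfl
  have := han ⟨0, 0, 1, 0⟩ ⟨K.zero_mem, K.zero_mem, K.one_mem, K.zero_mem⟩ (by simp [nr])
  simpa using congrArg QuaternionAlgebra.imJ this

/-- pure quaternions: some element of `D_K` does not commute with a given nonzero one -/
lemma exists_anticomm (hα : α ∈ K) (hβ : β ∈ K) (han : Aniso α β K) (p : Q α β) (hp : inD K p)
    (hp0 : p.re = 0) (hpne : p ≠ 0) : ∃ h : Q α β, inD K h ∧ h ≠ 0 ∧ h * p = -(p * h) := by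
  have key : ∀ x : Q α β, (x * p - p * x) * p = -(p * (x * p - p * x)) := by
    intro x
    have hsq : p * p = ((-nr p : ℂ) : Q α β) := by
      ext <;> simp only [re_mul, imI_mul, imJ_mul, imK_mul,
        re_coe, imI_coe, imJ_coe, imK_coe, nr, hp0] <;> ring
    have hc : x * (p * p) = (p * p) * x := by
      rw [hsq]
      ext <;> simp <;> ring
    calc (x * p - p * x) * p = x * (p * p) - p * x * p := by noncomm_ring
      _ = (p * p) * x - p * x * p := by rw [hc]
      _ = -(p * (x * p - p * x)) := by noncomm_ring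
  have hcand : ∀ x : Q α β, inD K x → x * p - p * x ≠ 0 →
      ∃ h : Q α β, inD K h ∧ h ≠ 0 ∧ h * p = -(p * h) := fun x hx h =>
    ⟨x * p - p * x, inD_sub (inD_mul hα hβ hx hp) (inD_mul hα hβ hp hx), h, key x⟩
  have h2 : (2 : ℂ) ≠ 0 := two_ne_zero
  have hα0 := α_ne han hα
  have hβ0 := β_ne han hα
  by_cases hi : (⟨0, 1, 0, 0⟩ : Q α β) * p - p * ⟨0, 1, 0, 0⟩ = 0
  · -- `imJ = imK = 0`
    have e1 := congrArg QuaternionAlgebra.imJ hi
    have e2 := congrArg QuaternionAlgebra.imK hi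
    simp only [imJ_sub, imJ_mul, imK_sub, imK_mul, imJ_zero, imK_zero] at e1 e2
    refine hcand ⟨0, 0, 1, 0⟩ ⟨K.zero_mem, K.zero_mem, K.one_mem, K.zero_mem⟩ ?_
    intro hj
    apply hpne
    have e3 := congrArg QuaternionAlgebra.imK hj
    simp only [imK_sub, imK_mul, imK_zero] at e3
    have f1 : p.imK = 0 := by
      have : α * p.imK * 2 = 0 := by linear_combination e1
      rcases mul_eq_zero.1 this with h | h
      · exact (mul_eq_zero.1 h).resolve_left hα0
      · exact absurd h h2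
    have f2 : p.imJ = 0 := by
      have : p.imJ * 2 = 0 := by linear_combination e2
      exact (mul_eq_zero.1 this).resolve_right h2
    have f3 : p.imI = 0 := by
      have : p.imI * 2 = 0 := by linear_combination -e3
      exact (mul_eq_zero.1 this).resolve_right h2
    ext
    · exact hp0
    · exact f3
    · exact f2
    · exact f1
  · exact hcand _ ⟨K.zero_mem, K.one_mem, K.zero_mem, K.zero_mem⟩ hi

/-- Skolem-Noether -/
lemma skolem (hα : α ∈ K) (hβ : β ∈ K) (han : Aniso α β K) {p q : Q α β} (hp : inD K p)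
    (hq : inD K q) (hre : p.re = q.re) (hnr : nr p = nr q) (hpi : p.im ≠ 0) :
    ∃ h : Q α β, inD K h ∧ h ≠ 0 ∧ h * p = q * h := by
  have hps : inD K p.im := ⟨K.zero_mem, hp.2.1, hp.2.2.1, hp.2.2.2⟩
  have hqs : inD K q.im := ⟨K.zero_mem, hq.2.1, hq.2.2.1, hq.2.2.2⟩
  have hsq : p.im * p.im = q.im * q.im := by
    have h1 : nr p - p.re ^ 2 = nr q - q.re ^ 2 := by rw [hnr, hre]
    simp only [nr] at h1
    ext
    · simp only [re_mul, re_im, imI_im, imJ_im, imK_im]
      linear_combination -h1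
    · simp only [imI_mul, re_im, imI_im, imJ_im, imK_im]
      ring
    · simp only [imJ_mul, re_im, imI_im, imJ_im, imK_im]
      ring
    · simp only [imK_mul, re_im, imI_im, imJ_im, imK_im]
      ring
  have hred : ∀ h : Q α β, h * p.im = q.im * h → h * p = q * h := by
    intro h hh
    have e1 : p = ((p.re : ℂ) : Q α β) + p.im := (re_add_im p).symm
    have e2 : q = ((q.re : ℂ) : Q α β) + q.im := (re_add_im q).symm
    rw [e1, e2, mul_add, add_mul, hh, hre]
    congr 1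
    ext <;> simp <;> ring
  by_cases h0 : p.im + q.im = 0
  · obtain ⟨h, hh, hh0, hc⟩ := exists_anticomm hα hβ han p.im hps rfl hpi
    refine ⟨h, hh, hh0, hred h ?_⟩
    rw [hc, eq_neg_of_add_eq_zero_right h0, neg_mul]
  · refine ⟨p.im + q.im, inD_add hps hqs, h0, hred _ ?_⟩
    rw [add_mul, mul_add, hsq, add_comm]

/-- anisotropy of the four-dimensional form in terms of `Fin 4 → K` -/
lemma aniso_iff (hα : α ∈ K) (hβ : β ∈ K) : Aniso α β K ↔
    ∀ v : Fin 4 → K, ∑ i, ![(1 : K), -⟨α, hα⟩, -⟨β, hβ⟩, ⟨α, hα⟩ * ⟨β, hβ⟩] i * v i ^ 2 = 0 →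
      v = 0 := by
  constructor
  · intro han v hv
    rw [Fin.sum_univ_four] at hv
    have hv' := congrArg (fun x : K => (x : ℂ)) hv
    simp at hv'
    have := han ⟨v 0, v 1, v 2, v 3⟩ ⟨(v 0).2, (v 1).2, (v 2).2, (v 3).2⟩ (by
      simp only [nr]
      linear_combination hv')
    have e0 : ((v 0 : K) : ℂ) = 0 := congrArg QuaternionAlgebra.re this
    have e1 : ((v 1 : K) : ℂ) = 0 := congrArg QuaternionAlgebra.imI this
    have e2 : ((v 2 : K) : ℂ) = 0 := congrArg QuaternionAlgebra.imJ this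
    have e3 : ((v 3 : K) : ℂ) = 0 := congrArg QuaternionAlgebra.imK this
    funext i
    fin_cases i
    · exact Subtype.ext e0
    · exact Subtype.ext e1
    · exact Subtype.ext e2
    · exact Subtype.ext e3
  · intro h x hx hn
    have h1 := h ![⟨x.re, hx.1⟩, ⟨x.imI, hx.2.1⟩, ⟨x.imJ, hx.2.2.1⟩, ⟨x.imK, hx.2.2.2⟩] (by
      rw [Fin.sum_univ_four]
      apply Subtype.ext
      simp
      rw [nr] at hn
      linear_combination hn)
    have e0 := congrArg (fun x : K => (x : ℂ)) (congrFun h1 0)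
    have e1 := congrArg (fun x : K => (x : ℂ)) (congrFun h1 1)
    have e2 := congrArg (fun x : K => (x : ℂ)) (congrFun h1 2)
    have e3 := congrArg (fun x : K => (x : ℂ)) (congrFun h1 3)
    ext
    · simpa using e0
    · simpa using e1
    · simpa using e2
    · simpa using e3

lemma aniso_adjoin (hα : α ∈ K) (hβ : β ∈ K) (han : Aniso α β K) {s : ℂ}
    (hs : Transcendental K s) : Aniso α β (adj K s) := by
  intro x hx hn
  have := aniso_adj hs _ ((aniso_iff hα hβ).1 han) ![x.re, x.imI, x.imJ, x.imK] (by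
    intro i
    fin_cases i
    · exact hx.1
    · exact hx.2.1
    · exact hx.2.2.1
    · exact hx.2.2.2) (by
    rw [Fin.sum_univ_four]
    simp
    rw [nr] at hn
    linear_combination hn)
  have e0 := congrFun this 0
  have e1 := congrFun this 1
  have e2 := congrFun this 2
  have e3 := congrFun this 3
  ext
  · simpa using e0
  · simpa using e1
  · simpa using e2
  · simpa using e3

/-- `(α, β)` stays division over `F(z)`, `z ^ 2 ∈ F`, unless `z ^ 2` is the square of a pure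
quaternion over `F` -/
lemma aniso_quad (hα : α ∈ K) (hβ : β ∈ K) (han : Aniso α β K) {z : ℂ} (hz : z ^ 2 ∈ K)
    (hzK : z ∉ K) (hno : ∀ q : Q α β, inD K q → q.re = 0 → nr q ≠ -z ^ 2) :
    Aniso α β (quad K z hz) := by
  intro x hx hn
  obtain ⟨⟨a0, ha0, b0, hb0, e0⟩, ⟨a1, ha1, b1, hb1, e1⟩, ⟨a2, ha2, b2, hb2, e2⟩,
    ⟨a3, ha3, b3, hb3, e3⟩⟩ := hx
  set X0 : Q α β := ⟨a0, a1, a2, a3⟩ with hX0
  set X1 : Q α β := ⟨b0, b1, b2, b3⟩ with hX1
  have hX0K : inD K X0 := ⟨ha0, ha1, ha2, ha3⟩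
  have hX1K : inD K X1 := ⟨hb0, hb1, hb2, hb3⟩
  set B : ℂ := (X0 * star X1).re with hB
  have hBK : B ∈ K := (inD_mul hα hβ hX0K (inD_star hX1K)).1
  have hexp : nr X0 + z ^ 2 * nr X1 + z * (2 * B) = 0 := by
    rw [← hn]
    simp only [nr, hB, re_mul, hX0, hX1, e0, e1, e2, e3]
    simp
    ring
  have h2K : (2 : ℂ) ∈ K := by
    rw [show (2 : ℂ) = 1 + 1 by norm_num]
    exact K.add_mem K.one_mem K.one_mem
  have hB0 : B = 0 := by
    by_contra hB0
    apply hzK
    have : z = -(nr X0 + z ^ 2 * nr X1) / (2 * B) := by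
      field_simp
      linear_combination hexp
    rw [this]
    exact K.div_mem (K.neg_mem (K.add_mem (nr_mem hα hβ hX0K)
      (K.mul_mem hz (nr_mem hα hβ hX1K)))) (K.mul_mem h2K hBK)
  have hexp2 : nr X0 + z ^ 2 * nr X1 = 0 := by
    rw [hB0] at hexp
    linear_combination hexp
  by_cases hX1z : X1 = 0
  · have hX0z : X0 = 0 := by
      apply han X0 hX0K
      rw [hX1z, nr_zero] at hexp2
      linear_combination hexp2
    have c0 : a0 = 0 := congrArg QuaternionAlgebra.re hX0z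
    have c1 : a1 = 0 := congrArg QuaternionAlgebra.imI hX0z
    have c2 : a2 = 0 := congrArg QuaternionAlgebra.imJ hX0z
    have c3 : a3 = 0 := congrArg QuaternionAlgebra.imK hX0z
    have d0 : b0 = 0 := congrArg QuaternionAlgebra.re hX1z
    have d1 : b1 = 0 := congrArg QuaternionAlgebra.imI hX1z
    have d2 : b2 = 0 := congrArg QuaternionAlgebra.imJ hX1z
    have d3 : b3 = 0 := congrArg QuaternionAlgebra.imK hX1z
    ext
    · rw [e0, c0, d0]; simp
    · rw [e1, c1, d1]; simp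
    · rw [e2, c2, d2]; simp
    · rw [e3, c3, d3]; simp
  · exfalso
    have hn1 : nr X1 ≠ 0 := nr_ne han hX1K hX1z
    refine hno ((nr X1)⁻¹ • (X0 * star X1)) (inD_smul (K.inv_mem (nr_mem hα hβ hX1K))
      (inD_mul hα hβ hX0K (inD_star hX1K))) ?_ ?_
    · rw [re_smul, ← hB, hB0, smul_zero]
    · rw [nr_smul, nr_mul, nr_star]
      field_simp
      linear_combination hexp2

end

end Pool.Agent.W347.STL
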